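import Pool.Agent.Lib.MP_571595_lc.MORT.Base
import Pool.Agent.Lib.MP_8d6ead_lc.RuleSys

/-!
# MACH: counter machines with five counters compute all partial recursive functions
-/

set_option autoImplicit false

namespace Pool.Agent.Lib.MP_571595_lc.MORT.H36

open Relation Turing PartrecToTM2
open Pool.Agent.Lib.MP_8d6ead_lc (Op Stk psh stk0 exists_rules_nat)

/-! ### restriction to finitely many states -/

/-- only finitely many states matter -/
theorem finite_restrict {J Q R : Type} [Finite R] (C : CM J Q R) :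
    ∃ (Q' : Type) (_ : Finite Q') (C' : CM J Q' R), ∀ c c',
      C'.Reach (C'.qin, c) (C'.qh, c') ↔ C.Reach (C.qin, c) (C.qh, c') := by
  let s : Set Q := {C.qin, C.qh} ∪ (Set.range C.src ∪ Set.range C.dst)
  have hs : s.Finite := (Set.toFinite _).union ((Set.finite_range _).union (Set.finite_range _))
  have hsrc : ∀ r, C.src r ∈ s := fun r => Or.inr (Or.inl ⟨r, rfl⟩)
  have hdst : ∀ r, C.dst r ∈ s := fun r => Or.inr (Or.inr ⟨r, rfl⟩)
  let C' : CM J s R :=
    { src := fun r => ⟨C.src r, hsrc r⟩
      dst := fun r => ⟨C.dst r, hdst r⟩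
      zt := C.zt
      del := C.del
      qin := ⟨C.qin, Or.inl (Or.inl rfl)⟩
      qh := ⟨C.qh, Or.inl (Or.inr rfl)⟩ }
  refine ⟨s, hs, C', fun c c' => ⟨?_, ?_⟩⟩
  · intro h
    have key : ∀ y, C'.Reach (C'.qin, c) y → C.Reach (C.qin, c) (y.1.1, y.2) := by
      intro y hy
      induction hy with
      | refl => exact ReflTransGen.refl
      | tail _ hst ih =>
        obtain ⟨r, h1, h2, h3, h4⟩ := hst
        refine ReflTransGen.tail ih ⟨r, ?_, ?_, h3, h4⟩
        · exact congrArg Subtype.val h1
        · exact congrArg Subtype.val h2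
    exact key _ h
  · intro h
    have key : ∀ y, C.Reach (C.qin, c) y → ∃ hy : y.1 ∈ s, C'.Reach (C'.qin, c) (⟨y.1, hy⟩, y.2) := by
      intro y hy
      induction hy with
      | refl => exact ⟨Or.inl (Or.inl rfl), ReflTransGen.refl⟩
      | @tail y z _ hst ih =>
        obtain ⟨hy', ih⟩ := ih
        obtain ⟨r, h1, h2, h3, h4⟩ := hst
        have hz : z.1 ∈ s := h2 ▸ hdst r
        refine ⟨hz, ReflTransGen.tail ih ⟨r, ?_, ?_, h3, h4⟩⟩
        · exact Subtype.ext h1
        · exact Subtype.ext h2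
    obtain ⟨_, h⟩ := key _ h
    exact h

/-! ### codes of stacks -/

/-- digit of a symbol -/
def dig : Γ' → ℕ
  | .consₗ => 1
  | .cons => 2
  | .bit0 => 3
  | .bit1 => 4

/-- code of a stack -/
def enc : List Γ' → ℕ
  | [] => 0
  | a :: l => dig a + 5 * enc l

theorem dig_pos (a : Γ') : 1 ≤ dig a := by cases a <;> simp [dig]

theorem dig_lt (a : Γ') : dig a < 5 := by cases a <;> simp [dig]

theorem dig_inj {a b : Γ'} (h : dig a = dig b) : a = b := by
  cases a <;> cases b <;> simp_all [dig]

theorem enc_cons_eq {a : Γ'} {t : ℕ} : ∀ {l : List Γ'}, enc l = dig a + 5 * t →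
    ∃ l', l = a :: l' ∧ enc l' = t := by
  intro l h
  cases l with
  | nil =>
    have := dig_pos a
    simp only [enc] at h
    omega
  | cons b l =>
    simp only [enc] at h
    have h1 := dig_lt a
    have h2 := dig_lt b
    have h3 : dig b = dig a := by omega
    exact ⟨l, by rw [dig_inj h3], by omega⟩

theorem enc_eq_zero {l : List Γ'} (h : enc l = 0) : l = [] := by
  cases l with
  | nil => rfl
  | cons b l =>
    have := dig_pos b
    simp only [enc] at h
    omega

/-- counter of a stack -/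
def ki : K' → Fin 5
  | .main => 0
  | .rev => 1
  | .aux => 2
  | .stack => 3

theorem ki_ne (k : K') : ki k ≠ 4 := by cases k <;> decide

theorem ki_inj {k k' : K'} (h : ki k = ki k') : k = k' := by
  cases k <;> cases k' <;> first | rfl | (exact absurd h (by decide))

theorem ki_cases (j : Fin 5) : (∃ k, j = ki k) ∨ j = 4 := by
  fin_cases j
  · exact Or.inl ⟨.main, rfl⟩
  · exact Or.inl ⟨.rev, rfl⟩
  · exact Or.inl ⟨.aux, rfl⟩
  · exact Or.inl ⟨.stack, rfl⟩
  · exact Or.inr rfl

/-- the counters of a stack configuration -/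
def cv (T : Stk) : Fin 5 → ℕ := ![enc (T .main), enc (T .rev), enc (T .aux), enc (T .stack), 0]

@[simp] theorem cv_ki (T : Stk) (k : K') : cv T (ki k) = enc (T k) := by cases k <;> rfl

@[simp] theorem cv_four (T : Stk) : cv T 4 = 0 := rfl

theorem eq_cv {T : Stk} {c : Fin 5 → ℕ} (h : ∀ k, c (ki k) = enc (T k)) (h4 : c 4 = 0) :
    c = cv T := by
  funext j
  rcases ki_cases j with ⟨k, rfl⟩ | rfl
  · rw [h, cv_ki]
  · rw [h4, cv_four]

/-! ### operations as affine maps of counters -/

/-- parameters of an operation -/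
structure Par where
  k : K'
  d0 : ℕ
  a : ℕ
  g : ℕ
  d1 : ℕ

/-- parameters of an operation -/
def par : Op → Par
  | .push k a => ⟨k, 0, 1, 5, dig a⟩
  | .pop k a => ⟨k, dig a, 5, 1, 0⟩
  | .peek k a => ⟨k, dig a, 5, 5, dig a⟩
  | .empty k => ⟨k, 0, 0, 0, 0⟩
  | .nop => ⟨.main, 0, 1, 1, 0⟩

theorem op_sound (o : Op) (T : Stk) (t : ℕ) (h : enc (T (par o).k) = (par o).d0 + (par o).a * t) :
    ∃ T', o.Rel T T' ∧ (∀ k, k ≠ (par o).k → T' k = T k) ∧
      enc (T' (par o).k) = (par o).d1 + (par o).g * t := by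
  cases o with
  | push k a =>
    refine ⟨psh k a T, rfl, fun k' hk' => ?_, ?_⟩
    · exact Function.update_of_ne hk' _ _
    · simp only [par, psh, Function.update_self, enc] at h ⊢
      omega
  | pop k a =>
    simp only [par] at h
    obtain ⟨l, hl, ht⟩ := enc_cons_eq h
    refine ⟨Function.update T k l, ?_, fun k' hk' => Function.update_of_ne hk' _ _, ?_⟩
    · show T = psh k a _
      simp only [psh, Function.update_self, Function.update_idem, ← hl, Function.update_eq_self]
    · simp only [par, Function.update_self]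
      omega
  | peek k a =>
    simp only [par] at h
    obtain ⟨l, hl, ht⟩ := enc_cons_eq h
    refine ⟨T, ⟨⟨Function.update T k l, ?_⟩, rfl⟩, fun k' hk' => rfl, h⟩
    simp only [psh, Function.update_self, Function.update_idem, ← hl, Function.update_eq_self]
  | empty k =>
    simp only [par] at h
    have h0 : T k = [] := enc_eq_zero (by omega)
    exact ⟨T, ⟨h0, rfl⟩, fun k' hk' => rfl, h⟩
  | nop => exact ⟨T, rfl, fun k' hk' => rfl, h⟩

theorem op_complete (o : Op) (T T' : Stk) (h : o.Rel T T') :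
    ∃ t, enc (T (par o).k) = (par o).d0 + (par o).a * t ∧
      (∀ k, k ≠ (par o).k → T' k = T k) ∧ enc (T' (par o).k) = (par o).d1 + (par o).g * t := by
  cases o with
  | push k a =>
    have h : T' = psh k a T := h
    subst h
    refine ⟨enc (T k), ?_, fun k' hk' => Function.update_of_ne hk' _ _, ?_⟩
    · simp [par]
    · simp [par, psh, enc]
  | pop k a =>
    have h : T = psh k a T' := h
    subst h
    refine ⟨enc (T' k), ?_, fun k' hk' => (Function.update_of_ne hk' _ _).symm, ?_⟩
    · simp [par, psh, enc]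
    · simp [par]
  | peek k a =>
    obtain ⟨⟨S, h1⟩, h2⟩ : (∃ S, T = psh k a S) ∧ T' = T := h
    subst h2
    subst h1
    refine ⟨enc (S k), ?_, fun k' hk' => rfl, ?_⟩
    · simp [par, psh, enc]
    · simp [par, psh, enc]
  | empty k =>
    obtain ⟨h1, h2⟩ : T k = [] ∧ T' = T := h
    subst h2
    refine ⟨0, ?_, fun k' hk' => rfl, ?_⟩
    · simp [par, h1, enc]
    · simp [par, h1, enc]
  | nop =>
    have h : T' = T := h
    subst h
    refine ⟨enc (T' .main), ?_, fun k' hk' => rfl, ?_⟩
    · simp [par]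
    · simp [par]

/-! ### the counter machine of a rule system -/

/-- control states -/
inductive QQ (n : ℕ) : Type
  | s (q : ℕ)
  | A (i : Fin n)
  | B (i : Fin n)
  | F

/-- instructions -/
inductive RR (n : ℕ) : Type
  | i0 (i : Fin n)
  | i1 (i : Fin n)
  | i2 (i : Fin n)
  | i3 (i : Fin n)
  | i4 (i : Fin n)
  | e
  | c (j : Fin 5)

instance finite_RR (n : ℕ) : Finite (RR n) := by
  let f : (Fin 5 × Fin n) ⊕ Option (Fin 5) → RR n
    | .inl (0, i) => .i0 i
    | .inl (1, i) => .i1 i
    | .inl (2, i) => .i2 i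
    | .inl (3, i) => .i3 i
    | .inl (4, i) => .i4 i
    | .inr none => .e
    | .inr (some j) => .c j
  refine Finite.of_surjective f ?_
  rintro (i | i | i | i | i | _ | j)
  · exact ⟨.inl (0, i), rfl⟩
  · exact ⟨.inl (1, i), rfl⟩
  · exact ⟨.inl (2, i), rfl⟩
  · exact ⟨.inl (3, i), rfl⟩
  · exact ⟨.inl (4, i), rfl⟩
  · exact ⟨.inr none, rfl⟩
  · exact ⟨.inr (some j), rfl⟩

variable (R : List (ℕ × Op × ℕ)) (q₀ qh : ℕ)

/-- parameters of a rule -/
def pr (i : Fin R.length) : Par := par (R.get i).2.1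

/-- the counter machine -/
def cm : CM (Fin 5) (QQ R.length) (RR R.length) where
  src
    | .i0 i => .s (R.get i).1
    | .i1 i => .A i
    | .i2 i => .A i
    | .i3 i => .B i
    | .i4 i => .B i
    | .e => .s qh
    | .c _ => .F
  dst
    | .i0 i => .A i
    | .i1 i => .A i
    | .i2 i => .B i
    | .i3 i => .B i
    | .i4 i => .s (R.get i).2.2
    | .e => .F
    | .c _ => .F
  zt
    | .i2 i, j => j = ki (pr R i).k
    | .i4 _, j => j = 4
    | _, _ => False
  del
    | .i0 i, j => if j = ki (pr R i).k then -((pr R i).d0 : ℤ) else 0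
    | .i1 i, j => if j = ki (pr R i).k then -((pr R i).a : ℤ) else if j = 4 then 1 else 0
    | .i2 _, _ => 0
    | .i3 i, j => if j = ki (pr R i).k then ((pr R i).g : ℤ) else if j = 4 then -1 else 0
    | .i4 i, j => if j = ki (pr R i).k then ((pr R i).d1 : ℤ) else 0
    | .e, _ => 0
    | .c j', j => if j = j' then -1 else 0
  qin := .s q₀
  qh := .F

/-- reachability in the rule system -/
abbrev RReach := Pool.Agent.Lib.MP_8d6ead_lc.Reach R

/-- the invariant -/
def Inv (S₀ : ℕ × Stk) : QQ R.length × (Fin 5 → ℕ) → Prop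
  | (.s q, c) => ∃ T, c = cv T ∧ RReach R S₀ (q, T)
  | (.A i, c) => ∃ T, RReach R S₀ ((R.get i).1, T) ∧
      (∀ k, k ≠ (pr R i).k → c (ki k) = enc (T k)) ∧
      enc (T (pr R i).k) = (pr R i).d0 + (pr R i).a * c 4 + c (ki (pr R i).k)
  | (.B i, c) => ∃ T s, RReach R S₀ ((R.get i).1, T) ∧
      (∀ k, k ≠ (pr R i).k → c (ki k) = enc (T k)) ∧
      enc (T (pr R i).k) = (pr R i).d0 + (pr R i).a * (c 4 + s) ∧
      c (ki (pr R i).k) = (pr R i).g * s
  | (.F, _) => ∃ T, RReach R S₀ (qh, T)

theorem inv_step {S₀ : ℕ × Stk} {x y : QQ R.length × (Fin 5 → ℕ)} (hx : Inv R qh S₀ x)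
    (h : (cm R q₀ qh).Step x y) : Inv R qh S₀ y := by
  obtain ⟨qx, c⟩ := x
  obtain ⟨qy, c'⟩ := y
  obtain ⟨r, h1, h2, h3, h4⟩ := h
  simp only at h1 h2 h3 h4
  subst h1
  subst h2
  cases r with
  | i0 i =>
    obtain ⟨T, rfl, hT⟩ := hx
    have h5 : ∀ j, (c' j : ℤ) = cv T j + if j = ki (pr R i).k then -((pr R i).d0 : ℤ) else 0 := h4
    refine ⟨T, hT, fun k hk => ?_, ?_⟩
    · have := h5 (ki k)
      rw [if_neg (fun h => hk (ki_inj h)), cv_ki] at this
      omega
    · have e1 := h5 (ki (pr R i).k)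
      have e2 := h5 4
      rw [if_pos rfl, cv_ki] at e1
      rw [if_neg (ki_ne _).symm, cv_four] at e2
      have e3 : c' 4 = 0 := by omega
      rw [e3]
      omega
  | i1 i =>
    obtain ⟨T, hT, hk, he⟩ := hx
    have h5 : ∀ j, (c' j : ℤ) = c j + if j = ki (pr R i).k then -((pr R i).a : ℤ) else
      if j = 4 then 1 else 0 := h4
    refine ⟨T, hT, fun k hk' => ?_, ?_⟩
    · have := h5 (ki k)
      rw [if_neg (fun h => hk' (ki_inj h)), if_neg (ki_ne _)] at this
      rw [← hk k hk']
      omega
    · have e1 := h5 (ki (pr R i).k)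
      have e2 := h5 4
      rw [if_pos rfl] at e1
      rw [if_neg (ki_ne _).symm, if_pos rfl] at e2
      have e3 : c' 4 = c 4 + 1 := by omega
      rw [he, e3]
      have e4 : c (ki (pr R i).k) = c' (ki (pr R i).k) + (pr R i).a := by omega
      rw [e4]
      ring
  | i2 i =>
    obtain ⟨T, hT, hk, he⟩ := hx
    have h5 : ∀ j, (c' j : ℤ) = c j + 0 := h4
    have h6 : c' = c := by
      funext j
      have := h5 j
      omega
    have h7 : c (ki (pr R i).k) = 0 := h3 _ rfl
    subst h6
    refine ⟨T, 0, hT, hk, ?_, ?_⟩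
    · rw [he, h7]
      simp
    · rw [h7]
      simp
  | i3 i =>
    obtain ⟨T, s, hT, hk, he, hg⟩ := hx
    have h5 : ∀ j, (c' j : ℤ) = c j + if j = ki (pr R i).k then ((pr R i).g : ℤ) else
      if j = 4 then -1 else 0 := h4
    refine ⟨T, s + 1, hT, fun k hk' => ?_, ?_, ?_⟩
    · have := h5 (ki k)
      rw [if_neg (fun h => hk' (ki_inj h)), if_neg (ki_ne _)] at this
      rw [← hk k hk']
      omega
    · have e2 := h5 4
      rw [if_neg (ki_ne _).symm, if_pos rfl] at e2
      have e3 : c 4 = c' 4 + 1 := by omega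
      rw [he, e3]
      ring
    · have e1 := h5 (ki (pr R i).k)
      rw [if_pos rfl, hg] at e1
      have e2 : c' (ki (pr R i).k) = (pr R i).g * s + (pr R i).g := by exact_mod_cast e1
      rw [e2]
      ring
  | i4 i =>
    obtain ⟨T, s, hT, hk, he, hg⟩ := hx
    have h5 : ∀ j, (c' j : ℤ) = c j + if j = ki (pr R i).k then ((pr R i).d1 : ℤ) else 0 := h4
    have h6 : c 4 = 0 := h3 _ rfl
    rw [h6, zero_add] at he
    obtain ⟨T', hrel, hk', he'⟩ := op_sound (R.get i).2.1 T s he
    refine ⟨T', eq_cv (fun k => ?_) ?_, ReflTransGen.tail hT ?_⟩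
    · by_cases hkk : k = (pr R i).k
      · subst hkk
        have e1 := h5 (ki (pr R i).k)
        rw [if_pos rfl, hg] at e1
        have e2 : c' (ki (pr R i).k) = (pr R i).g * s + (pr R i).d1 := by exact_mod_cast e1
        rw [e2]
        have e3 : enc (T' (pr R i).k) = (pr R i).d1 + (pr R i).g * s := he'
        rw [e3]
        ring
      · have := h5 (ki k)
        rw [if_neg (fun h => hkk (ki_inj h))] at this
        have e3 : T' k = T k := hk' k hkk
        rw [e3, ← hk k hkk]
        omega
    · have e2 := h5 4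
      rw [if_neg (ki_ne _).symm] at e2
      omega
    · exact ⟨R.get i, List.get_mem _ _, rfl, rfl, hrel⟩
  | e =>
    obtain ⟨T, _, hT⟩ := hx
    exact ⟨T, hT⟩
  | c j => exact hx

/-! ### completeness -/

/-- configurations during the simulation of a rule -/
def cw (T : Stk) (k : K') (x y : ℕ) : Fin 5 → ℕ :=
  fun j => if j = ki k then x else if j = 4 then y else cv T j

theorem cw_k (T : Stk) (k : K') (x y : ℕ) : cw T k x y (ki k) = x := if_pos rfl

theorem cw_4 (T : Stk) (k : K') (x y : ℕ) : cw T k x y 4 = y := by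
  unfold cw
  rw [if_neg (ki_ne _).symm, if_pos rfl]

theorem cw_o (T : Stk) (k : K') (x y : ℕ) {j : Fin 5} (h : j ≠ ki k) (h4 : j ≠ 4) :
    cw T k x y j = cv T j := by
  unfold cw
  rw [if_neg h, if_neg h4]

theorem loopA (i : Fin R.length) (T : Stk) : ∀ s y,
    (cm R q₀ qh).Reach (.A i, cw T (pr R i).k ((pr R i).a * s) y)
      (.A i, cw T (pr R i).k 0 (y + s)) := by
  intro s
  induction s with
  | zero => intro y; simp only [mul_zero, add_zero]; exact ReflTransGen.refl
  | succ s ih =>
    intro y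
    refine ReflTransGen.head (b := (.A i, cw T (pr R i).k ((pr R i).a * s) (y + 1))) ?_ ?_
    · refine ⟨.i1 i, rfl, rfl, fun j h => h.elim, fun j => ?_⟩
      show ((cw T (pr R i).k ((pr R i).a * s) (y + 1) j : ℕ) : ℤ) =
        (cw T (pr R i).k ((pr R i).a * (s + 1)) y j : ℕ) +
          if j = ki (pr R i).k then -((pr R i).a : ℤ) else if j = 4 then 1 else 0
      by_cases hj : j = ki (pr R i).k
      · subst hj
        rw [if_pos rfl, cw_k, cw_k]
        push_cast
        ring
      · by_cases hj4 : j = 4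
        · subst hj4
          rw [if_neg hj, if_pos rfl, cw_4, cw_4]
          push_cast
          ring
        · rw [if_neg hj, if_neg hj4, cw_o _ _ _ _ hj hj4, cw_o _ _ _ _ hj hj4, add_zero]
    · have := ih (y + 1)
      rw [show y + (s + 1) = y + 1 + s by ring]
      exact this

theorem loopB (i : Fin R.length) (T : Stk) : ∀ s x,
    (cm R q₀ qh).Reach (.B i, cw T (pr R i).k x s)
      (.B i, cw T (pr R i).k (x + (pr R i).g * s) 0) := by
  intro s
  induction s with
  | zero => intro x; simp only [mul_zero, add_zero]; exact ReflTransGen.refl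
  | succ s ih =>
    intro x
    refine ReflTransGen.head (b := (.B i, cw T (pr R i).k (x + (pr R i).g) s)) ?_ ?_
    · refine ⟨.i3 i, rfl, rfl, fun j h => h.elim, fun j => ?_⟩
      show ((cw T (pr R i).k (x + (pr R i).g) s j : ℕ) : ℤ) =
        (cw T (pr R i).k x (s + 1) j : ℕ) +
          if j = ki (pr R i).k then ((pr R i).g : ℤ) else if j = 4 then -1 else 0
      by_cases hj : j = ki (pr R i).k
      · subst hj
        rw [if_pos rfl, cw_k, cw_k]
        push_cast
        ring
      · by_cases hj4 : j = 4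
        · subst hj4
          rw [if_neg hj, if_pos rfl, cw_4, cw_4]
          push_cast
          ring
        · rw [if_neg hj, if_neg hj4, cw_o _ _ _ _ hj hj4, cw_o _ _ _ _ hj hj4, add_zero]
    · have := ih (x + (pr R i).g)
      rw [show x + (pr R i).g * (s + 1) = x + (pr R i).g + (pr R i).g * s by ring]
      exact this

theorem sim_rule (i : Fin R.length) (T T' : Stk) (h : (R.get i).2.1.Rel T T') :
    (cm R q₀ qh).Reach (.s (R.get i).1, cv T) (.s (R.get i).2.2, cv T') := by
  obtain ⟨t, h1, h2, h3⟩ := op_complete _ _ _ h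
  have h1 : enc (T (pr R i).k) = (pr R i).d0 + (pr R i).a * t := h1
  have h2 : ∀ k, k ≠ (pr R i).k → T' k = T k := h2
  have h3 : enc (T' (pr R i).k) = (pr R i).d1 + (pr R i).g * t := h3
  refine ReflTransGen.head (b := (.A i, cw T (pr R i).k ((pr R i).a * t) 0)) ?_ ?_
  · refine ⟨.i0 i, rfl, rfl, fun j h => h.elim, fun j => ?_⟩
    show ((cw T (pr R i).k ((pr R i).a * t) 0 j : ℕ) : ℤ) =
      (cv T j : ℕ) + if j = ki (pr R i).k then -((pr R i).d0 : ℤ) else 0
    by_cases hj : j = ki (pr R i).k
    · subst hj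
      rw [if_pos rfl, cw_k, cv_ki, h1]
      push_cast
      ring
    · by_cases hj4 : j = 4
      · subst hj4
        rw [if_neg hj, cw_4, cv_four]
        simp
      · rw [if_neg hj, cw_o _ _ _ _ hj hj4, add_zero]
  refine ReflTransGen.trans (loopA R q₀ qh i T t 0) ?_
  rw [zero_add]
  refine ReflTransGen.head (b := (.B i, cw T (pr R i).k 0 t)) ?_ ?_
  · refine ⟨.i2 i, rfl, rfl, fun j h => ?_, fun j => ?_⟩
    · have h : j = ki (pr R i).k := h
      subst h
      exact cw_k _ _ _ _
    · show ((cw T (pr R i).k 0 t j : ℕ) : ℤ) = (cw T (pr R i).k 0 t j : ℕ) + 0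
      rw [add_zero]
  refine ReflTransGen.trans (loopB R q₀ qh i T t 0) ?_
  rw [zero_add]
  refine ReflTransGen.single ⟨.i4 i, rfl, rfl, fun j h => ?_, fun j => ?_⟩
  · have h : j = 4 := h
    subst h
    exact cw_4 _ _ _ _
  · show ((cv T' j : ℕ) : ℤ) = (cw T (pr R i).k ((pr R i).g * t) 0 j : ℕ) +
        if j = ki (pr R i).k then ((pr R i).d1 : ℤ) else 0
    rcases ki_cases j with ⟨k, rfl⟩ | rfl
    · by_cases hk : k = (pr R i).k
      · subst hk
        rw [if_pos rfl, cw_k, cv_ki, h3]
        push_cast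
        ring
      · have hj : ki k ≠ ki (pr R i).k := fun h => hk (ki_inj h)
        rw [if_neg hj, cw_o _ _ _ _ hj (ki_ne _), cv_ki, cv_ki, h2 k hk, add_zero]
    · rw [if_neg (ki_ne _).symm, cw_4, cv_four]
      simp

theorem sim {S₀ : ℕ × Stk} {y : ℕ × Stk} (h : RReach R S₀ y) :
    (cm R q₀ qh).Reach (.s S₀.1, cv S₀.2) (.s y.1, cv y.2) := by
  induction h with
  | refl => exact ReflTransGen.refl
  | @tail b c _ hst ih =>
    obtain ⟨r, hr, h1, h2, h3⟩ := hst
    obtain ⟨i, rfl⟩ := List.mem_iff_get.1 hr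
    refine ReflTransGen.trans ih ?_
    have := sim_rule R q₀ qh i _ _ h3
    rw [h1, h2] at this
    exact this

theorem clean : ∀ (n : ℕ) (c : Fin 5 → ℕ), ∑ j, c j = n →
    (cm R q₀ qh).Reach (.F, c) (.F, 0) := by
  intro n
  induction n with
  | zero =>
    intro c hc
    have h0 : c = 0 := by
      funext j
      have := (Finset.sum_eq_zero_iff_of_nonneg (fun _ _ => Nat.zero_le _)).1 hc j (Finset.mem_univ j)
      exact this
    rw [h0]
    exact ReflTransGen.refl
  | succ n ih =>
    intro c hc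
    obtain ⟨j, hj⟩ : ∃ j, c j ≠ 0 := by
      by_contra hcon
      push Not at hcon
      simp [hcon] at hc
    have hstep : (cm R q₀ qh).Step (QQ.F, c) (QQ.F, Function.update c j (c j - 1)) := by
      refine ⟨.c j, rfl, rfl, fun j h => h.elim, fun j' => ?_⟩
      show ((Function.update c j (c j - 1) j' : ℕ) : ℤ) = (c j' : ℕ) + if j' = j then -1 else 0
      by_cases hjj : j' = j
      · subst hjj
        rw [if_pos rfl, Function.update_self]
        omega
      · rw [if_neg hjj, Function.update_of_ne hjj, add_zero]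
    refine ReflTransGen.head hstep (ih _ ?_)
    have h1 := Finset.sum_update_of_mem (Finset.mem_univ j) c (c j - 1)
    have h2 := Finset.add_sum_erase Finset.univ c (Finset.mem_univ j)
    rw [h1, ← Finset.erase_eq]
    omega

/-! ### computability of the input code -/

theorem trNat_even {n : ℕ} (hn : 0 < n) : trNat (2 * n) = Γ'.bit0 :: trNat n := by
  have h1 : ((2 * n : ℕ) : Num) = (n : Num).bit0 := by
    rw [← Num.bit0_of_bit0]
    push_cast
    ring
  unfold trNat
  rw [h1]
  rcases hp : (n : Num) with _ | p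
  · exfalso
    have h0 : (n : Num) = ((0 : ℕ) : Num) := by rw [hp]; rfl
    have := congrArg (fun x : Num => (x : ℕ)) h0
    simp at this
    omega
  · rfl

theorem trNat_odd (n : ℕ) : trNat (2 * n + 1) = Γ'.bit1 :: trNat n := by
  have h1 : ((2 * n + 1 : ℕ) : Num) = (n : Num).bit1 := by
    rw [← Num.bit1_of_bit1]
    push_cast
    ring
  unfold trNat
  rw [h1]
  rcases (n : Num) with _ | p <;> rfl

/-- code of the input stack -/
def inp (n : ℕ) : ℕ := enc (trList [n])

theorem inp_zero : inp 0 = 2 := rfl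

theorem inp_even {n : ℕ} (hn : 0 < n) : inp (2 * n) = 5 * inp n + 3 := by
  simp only [inp, trList, trNat_even hn, List.cons_append, enc, dig]
  omega

theorem inp_odd (n : ℕ) : inp (2 * n + 1) = 5 * inp n + 4 := by
  simp only [inp, trList, trNat_odd, List.cons_append, enc, dig]
  omega

theorem inp_primrec : Primrec inp := by
  let g : Unit → List ℕ → Option ℕ := fun _ l =>
    if l.length = 0 then some 2
    else (l[l.length / 2]?).map fun x => 5 * x + (if l.length % 2 = 0 then 3 else 4)
  have hg : Primrec₂ g := by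
    refine Primrec.ite ?_ (Primrec.const _) ?_
    · exact Primrec.eq.comp (Primrec.list_length.comp Primrec.snd) (Primrec.const 0)
    · refine Primrec.option_map ?_ ?_
      · exact Primrec.list_getElem?.comp Primrec.snd
          (Primrec.nat_div.comp (Primrec.list_length.comp Primrec.snd) (Primrec.const 2))
      · refine Primrec.nat_add.comp (Primrec.nat_mul.comp (Primrec.const 5) Primrec.snd)
          (Primrec.ite ?_ (Primrec.const 3) (Primrec.const 4))
        exact Primrec.eq.comp (Primrec.nat_mod.comp (Primrec.list_length.comp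
          (Primrec.snd.comp Primrec.fst)) (Primrec.const 2)) (Primrec.const 0)
  have h := Primrec.nat_strong_rec (fun (_ : Unit) n => inp n) hg (by
    intro _ n
    simp only [g, List.length_map, List.length_range]
    rcases Nat.eq_zero_or_pos n with h0 | h0
    · subst h0; simp [inp_zero]
    · rw [if_neg (by omega)]
      rw [List.getElem?_map, List.getElem?_range (by omega)]
      simp only [Option.map_some, Option.some.injEq]
      rcases Nat.even_or_odd' n with ⟨m, rfl | rfl⟩
      · rw [show 2 * m / 2 = m by omega, inp_even (by omega)]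
        simp
      · rw [show (2 * m + 1) / 2 = m by omega, inp_odd]
        simp)
  exact h.comp (Primrec.const ()) Primrec.id

theorem mach : MachStatement := by
  intro f hf
  obtain ⟨R, q₀, qh, hR⟩ := exists_rules_nat f hf
  obtain ⟨Q', hQ', C', hC'⟩ := finite_restrict (cm R q₀ qh)
  refine ⟨Q', RR R.length, hQ', inferInstance, C', inp, inp_primrec.to_comp, fun n => ?_⟩
  rw [hR n, hC']
  have hstart : (Pi.single 0 (inp n) : Fin 5 → ℕ) = cv (stk0 (trList [n])) := by
    funext j
    fin_cases j <;> rfl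
  rw [hstart]
  constructor
  · rintro ⟨T, hT⟩
    have h1 := sim R q₀ qh hT
    refine ReflTransGen.trans h1 (ReflTransGen.trans (ReflTransGen.single ?_)
      (clean R q₀ qh _ (cv T) rfl))
    refine ⟨.e, rfl, rfl, fun j h => h.elim, fun j => ?_⟩
    show ((cv T j : ℕ) : ℤ) = (cv T j : ℕ) + 0
    rw [add_zero]
  · intro h
    have key : ∀ y, (cm R q₀ qh).Reach ((cm R q₀ qh).qin, cv (stk0 (trList [n]))) y →
        Inv R qh (q₀, stk0 (trList [n])) y := by
      intro y hy
      induction hy with
      | refl => exact ⟨_, rfl, ReflTransGen.refl⟩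
      | tail _ hst ih => exact inv_step R q₀ qh ih hst
    exact key _ h

end Pool.Agent.Lib.MP_571595_lc.MORT.H36
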